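import Mathlib

/-!
# The Calabi-Yau varieties `∑ (x_j + 1 / x_j) = A(u)` over the rational function field: definitions
-/

set_option autoImplicit false

namespace Pool.Agent.Y145.KS

open Polynomial

variable {k : Type} [Field k]

/-- A polynomial which is additive on the algebraic closure. -/
def IsAdditive (A : k[X]) : Prop :=
  ∀ x y : AlgebraicClosure k, aeval (x + y) A = aeval x A + aeval y A

/-- The set of the elements of the subfield with `q ^ r` elements of the algebraic closure. -/
def level (k : Type) [Field k] (r : ℕ) : Set (AlgebraicClosure k) :=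
  {x | x ^ Nat.card k ^ r = x}

/-- The number of the points with coordinates in the field with `q ^ r` elements of the
hypersurface `∑ (x_j + 1 / x_j) = t` in the torus of dimension `2 i`. -/
noncomputable def torusPoints (i r : ℕ) (t : AlgebraicClosure k) : ℕ :=
  Nat.card {x : Fin (2 * i) → AlgebraicClosure k //
    (∀ j, x j ∈ level k r ∧ x j ≠ 0) ∧ ∑ j, (x j + (x j)⁻¹) = t}

/-- The number `C(2 i, l) - C(2 i, l - 1)`. -/
def ballot (i : ℕ) : ℕ → ℤ
  | 0 => 1
  | l + 1 => ((2 * i).choose (l + 1) : ℤ) - (2 * i).choose l

open Classical in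
/-- The trace of the `r`-th power of the Frobenius at the point `t` of the field with `q ^ r`
elements on the middle cohomology `H ^ (2 i - 1)` of the compactification of the hypersurface
`∑ (x_j + 1 / x_j) = t` (on its inertia invariants, if `t` is a critical value). -/
noncomputable def frobTrace (i r : ℕ) (t : AlgebraicClosure k) : ℂ :=
  (((Nat.card k : ℂ) ^ r - 1) ^ (2 * i) -
      ∑ l ∈ Finset.range (i + 1), (ballot i l : ℂ) * ((Nat.card k : ℂ) ^ r) ^ l) /
        (Nat.card k : ℂ) ^ r +
    (if t = 0 then (ballot i i : ℂ) * ((Nat.card k : ℂ) ^ r) ^ i else 0) - torusPoints i r t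

/-- The sum of the traces of the `r`-th power of the Frobenius over the points with coordinate in
the field with `q ^ r` elements of the projective line. -/
noncomputable def traceSum (i : ℕ) (A : k[X]) (r : ℕ) : ℂ :=
  ∑ᶠ u ∈ level k r, frobTrace i r (aeval u A) +
    ∑ l ∈ Finset.range i, (ballot i l : ℂ) * ((Nat.card k : ℂ) ^ r) ^ l

/-- `L(T) = exp (∑ S_r T ^ r / r)`. -/
def IsLPolynomial (L : ℂ[X]) (S : ℕ → ℂ) : Prop :=
  L.coeff 0 = 1 ∧
    (PowerSeries.X : PowerSeries ℂ) * PowerSeries.derivative ℂ (L : PowerSeries ℂ) =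
      (L : PowerSeries ℂ) * PowerSeries.mk (fun r => if r = 0 then 0 else S r)

end Pool.Agent.Y145.KS
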