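import Pool.Agent.H498R2.KlWeil

/-!
# Kloosterman sums over extensions: the two eigenvalues
-/

set_option autoImplicit false
set_option linter.unusedSectionVars false
set_option linter.style.haveILetI false

namespace Pool.Agent.Y145.KS

open Polynomial Finset
open Pool.Agent.H341R2.Sharp Pool.Agent.H498R2.Kl

section

variable {F : Type*} [Field F] [Fintype F] [DecidableEq F]

/-- The coefficient of degree one. -/
theorem AG_one {ψ : AddChar F ℂ} (hψ : ψ ≠ 1) {a : F} (ha : a ≠ 0) :
    AG (lamK ψ a a) 1 = ∑ x : F, (if x = 0 then (0 : ℂ) else ψ (a * x + a * x⁻¹)) := by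
  have h3 := LK_HID hψ ha a 1
  rw [Icc_self, sum_singleton, Nat.sub_self, LK_zero hψ ha, one_mul, Nat.cast_one,
    one_mul, LK_coeff hψ ha] at h3
  rw [h3]
  have h4 := TK_eq_sum (F := F) (E := F) ψ a a
  rw [Module.finrank_self] at h4
  rw [h4]
  apply sum_congr rfl
  intro x _
  simp

/-- The coefficient of degree two is the number of elements of the field. -/
theorem AG_two {ψ : AddChar F ℂ} (hψ : ψ ≠ 1) {a : F} (ha : a ≠ 0) :
    AG (lamK ψ a a) 2 = Fintype.card F := by
  classical
  have h1 : AG (lamK ψ a a) 2 = ∑ z : F × F,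
      (if z.2 = 0 then (0 : ℂ) else ψ (-(a * z.1 + a * (z.1 / z.2)))) := by
    unfold AG
    symm
    refine sum_bij (fun (z : F × F) _ => (X ^ 2 + C z.1 * X + C z.2 : F[X])) ?_ ?_ ?_ ?_
    · intro z _
      rw [mem_Mon]
      constructor
      · monicity!
      · compute_degree!
    · intro z _ w _ h
      have e0 := congrArg (fun P : F[X] => P.coeff 0) h
      have e1 := congrArg (fun P : F[X] => P.coeff 1) h
      simp [coeff_X, coeff_C] at e0 e1
      exact Prod.ext e1 e0
    · intro h hh
      rw [mem_Mon] at hh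
      refine ⟨(h.coeff 1, h.coeff 0), mem_univ _, ?_⟩
      have h2 := h.as_sum_range_C_mul_X_pow
      rw [hh.2] at h2
      have h3 : h.coeff 2 = 1 := by
        have := hh.1
        rw [Monic, leadingCoeff, hh.2] at this
        exact this
      rw [h2]
      simp only [sum_range_succ, sum_range_zero, h3]
      simp
      ring
    · intro z _
      have hnd : (X ^ 2 + C z.1 * X + C z.2 : F[X]).natDegree = 2 := by compute_degree!
      have e0 : (X ^ 2 + C z.1 * X + C z.2 : F[X]).coeff 0 = z.2 := by simp
      have e1 : (X ^ 2 + C z.1 * X + C z.2 : F[X]).coeff 1 = z.1 := by simp [coeff_X, coeff_C]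
      have e2 : (X ^ 2 + C z.1 * X + C z.2 : F[X]).nextCoeff = z.1 := by
        rw [nextCoeff_of_natDegree_pos (by rw [hnd]; omega), hnd, e1]
      unfold lamK
      rw [e0, e1, e2]
  rw [h1, Fintype.sum_prod_type, sum_comm]
  have h2 : ∀ c : F, ∑ x : F, (if c = 0 then (0 : ℂ) else ψ (-(a * x + a * (x / c)))) =
      if c = -1 then (Fintype.card F : ℂ) else 0 := by
    intro c
    by_cases hc : c = 0
    · simp [hc]
    · simp only [if_neg hc]
      have h3 : ∀ x : F, ψ (-(a * x + a * (x / c))) = ψ (x * (-(a * (1 + c⁻¹)))) := by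
        intro x
        congr 1
        field_simp
      simp_rw [h3]
      have h4 : (-(a * (1 + c⁻¹)) = 0) ↔ c = -1 := by
        rw [neg_eq_zero, mul_eq_zero, or_iff_right ha]
        constructor
        · intro h
          have h5 : c + 1 = 0 := by
            have := congrArg (fun z => c * z) h
            simp only [mul_add, mul_one, mul_inv_cancel₀ hc, mul_zero] at this
            exact this
          exact eq_neg_of_add_eq_zero_left h5
        · rintro rfl
          simp
      by_cases h5 : c = -1
      · rw [if_pos h5, h4.2 h5]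
        simp
      · rw [if_neg h5]
        have h6 : -(a * (1 + c⁻¹)) ≠ 0 := fun h => h5 (h4.1 h)
        have h7 : ∑ x : F, ψ (x * (-(a * (1 + c⁻¹)))) = ∑ x : F, ψ x := by
          refine Fintype.sum_equiv (Equiv.mulRight₀ _ h6) _ _ fun x => ?_
          rfl
        rw [h7]
        exact AddChar.sum_eq_zero_of_ne_one hψ
  simp_rw [h2]
  simp

end

end Pool.Agent.Y145.KS
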