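import Pool.Agent.Y145.KS.Kl

/-!
# The two eigenvalues of a Kloosterman sum: existence, product, and the quotient is not a root of unity
-/

set_option autoImplicit false
set_option linter.unusedSectionVars false
set_option linter.style.haveILetI false

namespace Pool.Agent.Y145.KS

open Polynomial Finset
open Pool.Agent.H341R2.Sharp Pool.Agent.H498R2.Kl

/-- There is a homomorphism of the ring of all algebraic integers to a domain of characteristic
`p`. -/
theorem exists_reduction (p : ℕ) [Fact p.Prime] :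
    ∃ I : Ideal (integralClosure ℤ ℂ), I.IsPrime ∧ ((p : ℕ) : integralClosure ℤ ℂ) ∈ I := by
  have hne : Ideal.span {((p : ℕ) : integralClosure ℤ ℂ)} ≠ ⊤ := by
    intro h
    rw [Ideal.span_singleton_eq_top] at h
    obtain ⟨u, hu⟩ := h.exists_right_inv
    have h1 : ((p : ℕ) : ℂ) * (u : ℂ) = 1 := by
      have := congrArg (fun z : integralClosure ℤ ℂ => (z : ℂ)) hu
      simpa using this
    have hp0 : ((p : ℕ) : ℂ) ≠ 0 := by exact_mod_cast (Fact.out : p.Prime).ne_zero
    have h2 : (u : ℂ) = algebraMap ℚ ℂ ((p : ℚ)⁻¹) := by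
      rw [map_inv₀, map_natCast]
      exact eq_inv_of_mul_eq_one_right h1
    have h3 : IsIntegral ℤ (algebraMap ℚ ℂ ((p : ℚ)⁻¹)) := by
      rw [← h2]
      exact u.2
    rw [isIntegral_algebraMap_iff (algebraMap ℚ ℂ).injective] at h3
    obtain ⟨n, hn⟩ := IsIntegrallyClosed.isIntegral_iff.1 h3
    have h4 : (n : ℚ) * p = 1 := by
      have hp1 : (p : ℚ) ≠ 0 := by exact_mod_cast (Fact.out : p.Prime).ne_zero
      have h5 : (n : ℚ) = (p : ℚ)⁻¹ := by simpa using hn
      rw [h5, inv_mul_cancel₀ hp1]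
    have h5 : (n : ℤ) * (p : ℤ) = 1 := by exact_mod_cast h4
    have h6 := Int.isUnit_iff.1 (IsUnit.of_mul_eq_one _ (by rw [mul_comm]; exact h5) : IsUnit (p : ℤ))
    have h7 := (Fact.out : p.Prime).two_le
    omega
  obtain ⟨I, hI, hle⟩ := Ideal.exists_le_maximal _ hne
  exact ⟨I, hI.isPrime, hle (Ideal.subset_span rfl)⟩

theorem pow_ne_pow {p : ℕ} [Fact p.Prime] {ι : Type*} (s : Finset ι) (z : ι → ℂ)
    (hz : ∀ x ∈ s, z x ^ p = 1) (hs : (s.card : ZMod p) = -1) (α β : ℂ) (e : ℕ) (he : 0 < e)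
    (hsum : α + β = -∑ x ∈ s, z x) (hprod : α * β = ((p ^ e : ℕ) : ℂ)) (h : ℕ) (hh : 0 < h) :
    α ^ h ≠ β ^ h := by
  classical
  intro heq
  obtain ⟨I, hI, hp⟩ := exists_reduction p
  have hpp : p.Prime := Fact.out
  -- all numbers are integral
  have hzi : ∀ x ∈ s, IsIntegral ℤ (z x) := by
    intro x hx
    refine ⟨X ^ p - 1, monic_X_pow_sub_C 1 hpp.ne_zero, ?_⟩
    simp [hz x hx]
  have hSi : IsIntegral ℤ (-∑ x ∈ s, z x) := (IsIntegral.sum _ hzi).neg
  have hαi : ∀ γ δ : ℂ, γ + δ = -∑ x ∈ s, z x → γ * δ = ((p ^ e : ℕ) : ℂ) → IsIntegral ℤ γ := by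
    intro γ δ h1 h2
    have hS2 : IsIntegral (integralClosure ℤ ℂ) γ := by
      refine ⟨X ^ 2 - C (⟨_, hSi⟩ : integralClosure ℤ ℂ) * X +
        C (((p ^ e : ℕ) : integralClosure ℤ ℂ)), ?_, ?_⟩
      · monicity!
      · simp only [eval₂_add, eval₂_sub, eval₂_mul, eval₂_pow, eval₂_X, eval₂_C]
        have e1 : (algebraMap (integralClosure ℤ ℂ) ℂ) ⟨_, hSi⟩ = γ + δ := h1.symm
        have e2 : (algebraMap (integralClosure ℤ ℂ) ℂ) ((p ^ e : ℕ) : integralClosure ℤ ℂ) =
          γ * δ := by
          rw [h2, map_natCast]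
        rw [e1, e2]
        ring
    exact isIntegral_trans γ hS2
  have hα := hαi α β hsum hprod
  have hβ := hαi β α (by rw [add_comm]; exact hsum) (by rw [mul_comm]; exact hprod)
  let a : integralClosure ℤ ℂ := ⟨α, hα⟩
  let b : integralClosure ℤ ℂ := ⟨β, hβ⟩
  have hab : a * b = ((p ^ e : ℕ) : integralClosure ℤ ℂ) := by
    apply Subtype.ext
    simpa [a, b] using hprod
  have hheq : a ^ h = b ^ h := by
    apply Subtype.ext
    simpa [a, b] using heq
  have hpe : ((p ^ e : ℕ) : integralClosure ℤ ℂ) ∈ I := by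
    push_cast
    exact I.pow_mem_of_mem hp e he
  have h2 : a ^ (2 * h) ∈ I := by
    have : a ^ (2 * h) = (a * b) ^ h := by
      rw [two_mul, pow_add, mul_pow]
      nth_rewrite 2 [hheq]
      rfl
    rw [this, hab]
    exact I.pow_mem_of_mem hpe h hh
  have h3 : b ^ (2 * h) ∈ I := by
    have : b ^ (2 * h) = (a * b) ^ h := by
      rw [two_mul, pow_add, mul_pow]
      nth_rewrite 1 [← hheq]
      rfl
    rw [this, hab]
    exact I.pow_mem_of_mem hpe h hh
  have ha := hI.mem_of_pow_mem _ h2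
  have hb := hI.mem_of_pow_mem _ h3
  -- the sum is congruent to one
  have : CharP (integralClosure ℤ ℂ ⧸ I) p := by
    have : Nontrivial (integralClosure ℤ ℂ ⧸ I) := Ideal.Quotient.nontrivial_iff.2 hI.ne_top
    have h4 : ((p : ℕ) : integralClosure ℤ ℂ ⧸ I) = 0 := by
      have := Ideal.Quotient.eq_zero_iff_mem.2 hp
      simpa using this
    exact (CharP.charP_iff_prime_eq_zero hpp).2 h4
  have hdom : IsDomain (integralClosure ℤ ℂ ⧸ I) := (Ideal.Quotient.isDomain_iff_prime I).2 hI
  have hone : ∀ x : {x // x ∈ s}, Ideal.Quotient.mk I ⟨z x, hzi x x.2⟩ = 1 := by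
    intro x
    have h4 : (⟨z x, hzi x x.2⟩ : integralClosure ℤ ℂ) ^ p = 1 := by
      apply Subtype.ext
      simpa using hz x x.2
    have h5 : (Ideal.Quotient.mk I ⟨z x, hzi x x.2⟩ - 1) ^ p = 0 := by
      rw [sub_pow_char, ← map_pow, h4, map_one, one_pow, sub_self]
    have h6 := pow_eq_zero_iff hpp.ne_zero |>.1 h5
    exact sub_eq_zero.1 h6
  have h4 : a + b = -∑ x : {x // x ∈ s}, (⟨z x, hzi x x.2⟩ : integralClosure ℤ ℂ) := by
    apply Subtype.ext
    have e1 : ((-∑ x : {x // x ∈ s}, (⟨z x, hzi x x.2⟩ : integralClosure ℤ ℂ) :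
      integralClosure ℤ ℂ) : ℂ) = -∑ x : {x // x ∈ s}, z x := by
      push_cast
      rfl
    rw [e1, sum_coe_sort s z, ← hsum]
    rfl
  have h5 : Ideal.Quotient.mk I (a + b) = 0 := Ideal.Quotient.eq_zero_iff_mem.2 (I.add_mem ha hb)
  rw [h4, map_neg, map_sum, sum_congr rfl fun x _ => hone x, sum_const, card_univ,
    Fintype.card_coe, nsmul_eq_mul, mul_one, neg_eq_zero] at h5
  have h6 : (p : ℕ) ∣ s.card := (CharP.cast_eq_zero_iff (integralClosure ℤ ℂ ⧸ I) p _).1 h5
  have h7 : (s.card : ZMod p) = 0 := (ZMod.natCast_eq_zero_iff _ _).2 h6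
  rw [h7] at hs
  have : (1 : ZMod p) = 0 := by
    have := congrArg Neg.neg hs
    simpa using this.symm
  exact one_ne_zero this

section

variable {F : Type*} [Field F] [Fintype F] [DecidableEq F]

/-- The eigenvalues of the Kloosterman sum: their product is the number of elements of the field, no
power of their quotient is one, and the sums over the extensions are given by their powers. -/
theorem exists_eigen {ψ : AddChar F ℂ} (hψ : ψ ≠ 1) {a : F} (ha : a ≠ 0) :
    ∃ α β : ℂ, α * β = Fintype.card F ∧ (∀ h : ℕ, 0 < h → α ^ h ≠ β ^ h) ∧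
      ∀ m : ℕ, 0 < m → TG (lamK ψ a a) m = -(α ^ m + β ^ m) := by
  classical
  obtain ⟨p, hp⟩ := CharP.exists F
  have : Fact (Nat.Prime p) := ⟨CharP.char_is_prime F p⟩
  obtain ⟨e, he, hcard⟩ := FiniteField.card F p
  -- the roots
  obtain ⟨α, hα⟩ : ∃ α : ℂ, α ^ 2 + AG (lamK ψ a a) 1 * α + Fintype.card F = 0 := by
    have h1 : (X ^ 2 + C (AG (lamK ψ a a) 1) * X + C (Fintype.card F : ℂ) : ℂ[X]).degree ≠ 0 := by
      have : (X ^ 2 + C (AG (lamK ψ a a) 1) * X + C (Fintype.card F : ℂ) : ℂ[X]).degree = 2 := by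
        compute_degree!
      rw [this]
      norm_num
    obtain ⟨α, hα⟩ := IsAlgClosed.exists_root _ h1
    refine ⟨α, ?_⟩
    simpa [IsRoot] using hα
  set β : ℂ := -AG (lamK ψ a a) 1 - α with hβ
  have hsum : α + β = -AG (lamK ψ a a) 1 := by rw [hβ]; ring
  have hprod : α * β = Fintype.card F := by rw [hβ]; linear_combination -hα
  have hHID := LK_HID hψ ha a
  have hT : ∀ m : ℕ, 0 < m → TG (lamK ψ a a) m = -(α ^ m + β ^ m) := by
    intro m
    induction m using Nat.strong_induction_on with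
    | _ m ih =>
      intro hm
      have h1 := hHID m
      rcases Nat.lt_or_ge m 3 with h3 | h3
      · interval_cases m
        · rw [Icc_self, sum_singleton, Nat.sub_self, LK_zero hψ ha, one_mul, Nat.cast_one,
            one_mul, LK_coeff hψ ha] at h1
          rw [← h1]
          linear_combination -hsum
        · have hI : Icc 1 2 = ({1, 2} : Finset ℕ) := by decide
          rw [hI, sum_pair (by norm_num), LK_coeff hψ ha, LK_coeff hψ ha, LK_coeff hψ ha,
            AG_two hψ ha] at h1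
          rw [ih 1 (by norm_num) one_pos, show 2 - 1 = 1 from rfl, Nat.sub_self,
            AG_zero (lamK_mult ψ a a)] at h1
          push_cast at h1
          have h2 : AG (lamK ψ a a) 1 = -(α + β) := by rw [hsum]; ring
          rw [h2] at h1
          rw [← hprod] at h1
          linear_combination -h1
      · rw [LK_coeff hψ ha, AK_eq_zero hψ ha a m h3, mul_zero] at h1
        have h4 : ∑ x ∈ Icc 1 m, (LK ψ a a).coeff (m - x) * TG (lamK ψ a a) x =
            ∑ x ∈ ({m - 2, m - 1, m} : Finset ℕ), (LK ψ a a).coeff (m - x) * TG (lamK ψ a a) x := by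
          symm
          refine sum_subset ?_ ?_
          · intro x hx
            simp only [mem_insert, mem_singleton] at hx
            rw [mem_Icc]
            omega
          · intro x hx hx2
            simp only [mem_insert, mem_singleton, not_or] at hx2
            rw [mem_Icc] at hx
            rw [LK_coeff hψ ha, AK_eq_zero hψ ha a _ (by omega), zero_mul]
        rw [h4, sum_insert, sum_pair (by omega)] at h1
        · rw [Nat.sub_self, show m - (m - 1) = 1 by omega, show m - (m - 2) = 2 by omega,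
            LK_coeff hψ ha, LK_coeff hψ ha, LK_coeff hψ ha, AG_two hψ ha,
            AG_zero (lamK_mult ψ a a), ih (m - 2) (by omega) (by omega),
            ih (m - 1) (by omega) (by omega)] at h1
          have h2 : AG (lamK ψ a a) 1 = -(α + β) := by rw [hsum]; ring
          rw [h2, ← hprod] at h1
          obtain ⟨k, rfl⟩ : ∃ k, m = k + 2 := ⟨m - 2, by omega⟩
          rw [show k + 2 - 1 = k + 1 by omega, show k + 2 - 2 = k by omega] at h1
          linear_combination -h1
        · simp only [mem_insert, mem_singleton]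
          omega
  refine ⟨α, β, hprod, ?_, hT⟩
  intro h hh
  refine pow_ne_pow (p := p) (univ.filter (fun x : F => x ≠ 0)) (fun x => ψ (a * x + a * x⁻¹))
    ?_ ?_ α β e e.pos ?_ ?_ h hh
  · intro x _
    rw [← AddChar.map_nsmul_eq_pow, nsmul_eq_mul, CharP.cast_eq_zero, zero_mul,
      AddChar.map_zero_eq_one]
  · rw [filter_ne', card_erase_of_mem (mem_univ _), card_univ, hcard]
    rw [Nat.cast_sub (Nat.one_le_pow _ _ (Fact.out : p.Prime).pos)]
    push_cast
    rw [CharP.cast_eq_zero, zero_pow e.pos.ne', zero_sub]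
  · rw [hsum, AG_one hψ ha, sum_filter]
    congr 1
    refine sum_congr rfl fun x _ => ?_
    by_cases hx : x = 0 <;> simp [hx]
  · rw [hprod, hcard]

end

end Pool.Agent.Y145.KS
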