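import Pool.Agent.Y145.KS.Kl2

/-!
# Kloosterman sums at the closed points of the line
-/

set_option autoImplicit false
set_option linter.unusedSectionVars false
set_option linter.style.haveILetI false

namespace Pool.Agent.Y145.KS

open Polynomial Finset
open Pool.Agent.H341R2.Sharp Pool.Agent.H498R2.Kl

variable {k : Type} [Field k] [Fintype k]

/-- The additive character of an extension. -/
noncomputable def psi (ψ : AddChar k ℂ) (E : Type) [Field E] [Algebra k E] : AddChar E ℂ :=
  ψ.compAddMonoidHom (Algebra.trace k E).toAddMonoidHom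

theorem psi_apply (ψ : AddChar k ℂ) (E : Type) [Field E] [Algebra k E] (x : E) :
    psi ψ E x = ψ (Algebra.trace k E x) := rfl

theorem psi_ne_one {ψ : AddChar k ℂ} (hψ : ψ ≠ 1) (E : Type) [Field E] [Fintype E] [Algebra k E] :
    psi ψ E ≠ 1 := by
  obtain ⟨t, ht⟩ := AddChar.ne_one_iff.1 hψ
  obtain ⟨x, hx⟩ := Algebra.trace_surjective k E t
  exact AddChar.ne_one_iff.2 ⟨x, by rw [psi_apply, hx]; exact ht⟩

/-- The Kloosterman sum over `E` attached to `a`. -/
noncomputable def KS (ψ : AddChar k ℂ) (E : Type) [Field E] [Fintype E] [DecidableEq E]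
    [Algebra k E] (a : E) : ℂ :=
  ∑ x : E, if x = 0 then 0 else psi ψ E (a * x + a * x⁻¹)

theorem exists_eigen_pt {ψ : AddChar k ℂ} (hψ : ψ ≠ 1) (P : k[X]) (hP : P.Monic)
    (hirr : Irreducible P) (hX : P ≠ X) :
    ∃ α β : ℂ, α * β = (Fintype.card k : ℂ) ^ P.natDegree ∧ (∀ h : ℕ, 0 < h → α ^ h ≠ β ^ h) ∧
      ∀ (E : Type) [Field E] [Fintype E] [DecidableEq E] [Algebra k E] (a : E),
        minpoly k a = P → KS ψ E a = -(α ^ (Module.finrank k E / P.natDegree) +
          β ^ (Module.finrank k E / P.natDegree)) := by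
  classical
  haveI : Fact (Irreducible P) := ⟨hirr⟩
  let F := AdjoinRoot P
  haveI : Module.Finite k F := hP.finite_adjoinRoot
  haveI : Finite F := Module.finite_of_finite k
  letI : Fintype F := Fintype.ofFinite F
  have hfr : Module.finrank k F = P.natDegree := by
    rw [(AdjoinRoot.powerBasis hP.ne_zero).finrank, AdjoinRoot.powerBasis_dim]
  have hcard : Fintype.card F = Fintype.card k ^ P.natDegree := by
    rw [Module.card_eq_pow_finrank (K := k) (V := F), hfr]
  have ha : AdjoinRoot.root P ≠ 0 := by
    intro h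
    have h1 : minpoly k (AdjoinRoot.root P) = P := by
      rw [AdjoinRoot.minpoly_root hP.ne_zero, hP.leadingCoeff]
      simp
    rw [h] at h1
    rw [minpoly.zero] at h1
    exact hX h1.symm
  obtain ⟨α, β, h1, h2, h3⟩ := exists_eigen (psi_ne_one hψ F) ha
  refine ⟨α, β, ?_, h2, ?_⟩
  · rw [h1, hcard]
    push_cast
    rfl
  · intro E _ _ _ _ a hmin
    have hroot : P.eval₂ (algebraMap k E) a = 0 := by
      have := minpoly.aeval k a
      rw [hmin] at this
      exact this
    let φ : F →+* E := AdjoinRoot.lift (algebraMap k E) a hroot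
    letI : Algebra F E := φ.toAlgebra
    haveI : IsScalarTower k F E := by
      refine IsScalarTower.of_algebraMap_eq fun x => ?_
      change algebraMap k E x = φ (algebraMap k F x)
      rw [show algebraMap k F x = AdjoinRoot.of P x from rfl]
      exact (AdjoinRoot.lift_of hroot).symm
    haveI : Module.Finite F E := Module.Finite.of_finite
    have hE : Module.finrank k E / P.natDegree = Module.finrank F E := by
      rw [← Module.finrank_mul_finrank k F E, hfr]
      exact Nat.mul_div_cancel_left _ hirr.natDegree_pos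
    have hpos : 0 < Module.finrank F E := Module.finrank_pos
    have ha' : algebraMap F E (AdjoinRoot.root P) = a := AdjoinRoot.lift_root hroot
    rw [hE, ← h3 _ hpos, TK_eq_sum (E := E)]
    unfold KS
    refine sum_congr rfl fun x _ => ?_
    by_cases hx : x = 0
    · simp [hx]
    · rw [if_neg hx, if_neg hx, psi_apply, psi_apply, ha', Algebra.trace_trace]

end Pool.Agent.Y145.KS
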