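import Pool.Agent.Y145.KS.Pt
import Pool.Agent.Y145.KS.Defs

/-!
# Sums over the points of finite extensions, the group of good points
-/

set_option autoImplicit false
set_option linter.unusedSectionVars false
set_option linter.style.haveILetI false

namespace Pool.Agent.Y145.KS

open Polynomial Finset
open Pool.Agent.H341R2.Sharp Pool.Agent.H498R2.Kl

section MinpolySum

variable {F : Type} [Field F] [Fintype F] [DecidableEq F]

theorem splits_of_dvd_finrank {E : Type} [Field E] [Fintype E] [Algebra F E] {P : F[X]}
    (hirr : Irreducible P) (hdvd : P.natDegree ∣ Module.finrank F E) :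
    (P.map (algebraMap F E)).Splits := by
  have h4 : P ∣ X ^ (Nat.card F) ^ (Module.finrank F E) - X :=
    (hirr.natDegree_dvd_iff_dvd_X_pow_card_pow_sub_X).1 hdvd
  have h5 : (P.map (algebraMap F E)) ∣ (X ^ (Nat.card F) ^ (Module.finrank F E) - X : E[X]) := by
    have := Polynomial.map_dvd (algebraMap F E) h4
    simpa using this
  have hcard : (Nat.card F) ^ (Module.finrank F E) = Fintype.card E := by
    rw [Nat.card_eq_fintype_card, Module.card_eq_pow_finrank (K := F) (V := E)]
  rw [hcard] at h5
  have h6 : (X ^ Fintype.card E - X : E[X]).Splits := by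
    rw [splits_iff_card_roots, FiniteField.roots_X_pow_card_sub_X,
      FiniteField.X_pow_card_sub_X_natDegree_eq _ Fintype.one_lt_card]
    rfl
  exact h6.of_dvd (FiniteField.X_pow_card_sub_X_ne_zero _ Fintype.one_lt_card) h5

theorem sum_minpoly {E : Type} [Field E] [Fintype E] [DecidableEq E] [Algebra F E]
    {M : Type*} [CommRing M] (g : F[X] → M) :
    ∑ x : E, g (minpoly F x) =
      ∑ P ∈ (Irr F (Module.finrank F E)).filter (fun P => P.natDegree ∣ Module.finrank F E),
        (P.natDegree : M) * g P := by
  classical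
  set m := Module.finrank F E with hm
  have hm0 : 0 < m := Module.finrank_pos
  have h1 : ∀ x ∈ (univ : Finset E), minpoly F x ∈ (Irr F m).filter (fun P => P.natDegree ∣ m) := by
    intro x _
    have hx : IsIntegral F x := Algebra.IsIntegral.isIntegral x
    rw [mem_filter, mem_Irr]
    refine ⟨⟨minpoly.monic hx, minpoly.irreducible hx, Nat.le_of_dvd hm0 (finrank_div x).2⟩,
      (finrank_div x).2⟩
  rw [← sum_fiberwise_of_maps_to h1]
  apply sum_congr rfl
  intro P hP
  rw [mem_filter, mem_Irr] at hP
  obtain ⟨⟨hmon, hirr, _⟩, hdvd⟩ := hP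
  have h2 : ∀ x ∈ univ.filter (fun x : E => minpoly F x = P), g (minpoly F x) = g P := by
    intro x hx
    rw [mem_filter] at hx
    rw [hx.2]
  rw [sum_congr rfl h2, sum_const, nsmul_eq_mul]
  congr 2
  have h3 : univ.filter (fun x : E => minpoly F x = P) = (P.rootSet E).toFinset := by
    ext x
    rw [mem_filter, Set.mem_toFinset, mem_rootSet]
    constructor
    · rintro ⟨_, rfl⟩
      exact ⟨hmon.ne_zero, minpoly.aeval F x⟩
    · rintro ⟨_, h⟩
      exact ⟨mem_univ _, (minpoly.eq_of_irreducible_of_monic hirr h hmon).symm⟩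
  rw [h3, Set.toFinset_card, card_rootSet_eq_natDegree (PerfectField.separable_of_irreducible hirr)
    (splits_of_dvd_finrank hirr hdvd)]

end MinpolySum

section Additive

variable {k : Type} [Field k] [Fintype k]

theorem IsAdditive.ext {A : k[X]} (hA : IsAdditive A) (E : Type) [Field E] [Algebra k E]
    [Algebra.IsAlgebraic k E] (x y : E) : aeval (x + y) A = aeval x A + aeval y A := by
  let φ : E →ₐ[k] AlgebraicClosure k := IsAlgClosed.lift
  apply φ.toRingHom.injective
  change φ _ = φ _
  rw [map_add, ← aeval_algHom_apply, ← aeval_algHom_apply, ← aeval_algHom_apply, map_add]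
  exact hA _ _

/-- The additive map of an extension. -/
noncomputable def addMap {A : k[X]} (hA : IsAdditive A) (E : Type) [Field E] [Algebra k E]
    [Algebra.IsAlgebraic k E] : E →+ E :=
  AddMonoidHom.mk' (fun u => aeval u A) (hA.ext E)

theorem addMap_apply {A : k[X]} (hA : IsAdditive A) (E : Type) [Field E] [Algebra k E]
    [Algebra.IsAlgebraic k E] (u : E) : addMap hA E u = aeval u A := rfl

theorem trace_aeval {A : k[X]} (hA : IsAdditive A) (F E : Type) [Field F] [Fintype F] [Field E]
    [Fintype E] [Algebra k F] [Algebra k E] [Algebra F E] [IsScalarTower k F E] (u : E) :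
    Algebra.trace F E (aeval u A) = aeval (Algebra.trace F E u) A := by
  haveI : Module.Finite k E := Module.Finite.of_finite
  haveI : Module.Finite F E := Module.Finite.of_finite
  apply (algebraMap F E).injective
  rw [← aeval_algebraMap_apply, trace_eq_sum_automorphisms, trace_eq_sum_automorphisms,
    ← addMap_apply hA, ← addMap_apply hA, map_sum]
  refine sum_congr rfl fun σ _ => ?_
  rw [addMap_apply, addMap_apply]
  exact (aeval_algHom_apply (σ.toAlgHom.restrictScalars k) u A).symm

/-- The point `a` of the extension `E` is good. -/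
def GoodPt (ψ : AddChar k ℂ) (A : k[X]) (E : Type) [Field E] [Algebra k E] (a : E) : Prop :=
  ∀ u : E, psi ψ E (a * aeval u A) = 1

theorem goodPt_iff_adjoin (ψ : AddChar k ℂ) {A : k[X]} (hA : IsAdditive A) (P : k[X])
    [Fact (Irreducible P)] (E : Type) [Field E] [Fintype E] [Algebra k E] (a : E)
    (hmin : minpoly k a = P) :
    GoodPt ψ A E a ↔ GoodPt ψ A (AdjoinRoot P) (AdjoinRoot.root P) := by
  classical
  haveI : Module.Finite k E := Module.Finite.of_finite
  have hP : P.Monic := by rw [← hmin]; exact minpoly.monic (Algebra.IsIntegral.isIntegral a)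
  let F := AdjoinRoot P
  haveI : Module.Finite k F := hP.finite_adjoinRoot
  haveI : Finite F := Module.finite_of_finite k
  letI : Fintype F := Fintype.ofFinite F
  have hroot : P.eval₂ (algebraMap k E) a = 0 := by
    have := minpoly.aeval k a
    rw [hmin] at this
    exact this
  let φ : F →+* E := AdjoinRoot.lift (algebraMap k E) a hroot
  letI : Algebra F E := φ.toAlgebra
  haveI : IsScalarTower k F E := by
    refine IsScalarTower.of_algebraMap_eq fun x => ?_
    change algebraMap k E x = φ (algebraMap k F x)
    rw [show algebraMap k F x = AdjoinRoot.of P x from rfl]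
    exact (AdjoinRoot.lift_of hroot).symm
  haveI : Module.Finite F E := Module.Finite.of_finite
  have ha' : algebraMap F E (AdjoinRoot.root P) = a := AdjoinRoot.lift_root hroot
  have key : ∀ u : E, psi ψ E (a * aeval u A) =
      psi ψ F (AdjoinRoot.root P * aeval (Algebra.trace F E u) A) := by
    intro u
    rw [psi_apply, psi_apply, ← trace_aeval hA F E, ← ha', ← Algebra.smul_def,
      ← Algebra.trace_trace (S := F), map_smul, smul_eq_mul]
  constructor
  · intro h v
    obtain ⟨u, rfl⟩ := Algebra.trace_surjective F E v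
    rw [← key]
    exact h u
  · intro h u
    rw [key]
    exact h _

/-- A closed point of the affine line is good. -/
def Good (ψ : AddChar k ℂ) (A : k[X]) (P : k[X]) : Prop :=
  ∀ h : Irreducible P, haveI : Fact (Irreducible P) := ⟨h⟩
    GoodPt ψ A (AdjoinRoot P) (AdjoinRoot.root P)

theorem goodPt_iff (ψ : AddChar k ℂ) {A : k[X]} (hA : IsAdditive A)
    (E : Type) [Field E] [Fintype E] [Algebra k E] (a : E) :
    GoodPt ψ A E a ↔ Good ψ A (minpoly k a) := by
  haveI : Module.Finite k E := Module.Finite.of_finite
  have hirr : Irreducible (minpoly k a) := minpoly.irreducible (Algebra.IsIntegral.isIntegral a)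
  haveI : Fact (Irreducible (minpoly k a)) := ⟨hirr⟩
  rw [goodPt_iff_adjoin ψ hA (minpoly k a) E a rfl]
  exact ⟨fun h _ => h, fun h => h hirr⟩

theorem psi_isPrimitive {ψ : AddChar k ℂ} (hψ : ψ ≠ 1) (E : Type) [Field E] [Fintype E]
    [Algebra k E] : (psi ψ E).IsPrimitive :=
  AddChar.IsPrimitive.of_ne_one (psi_ne_one hψ E)

open Classical in
theorem sum_psi_addMap {ψ : AddChar k ℂ} {A : k[X]} (hA : IsAdditive A)
    (E : Type) [Field E] [Fintype E] [Algebra k E] (a : E) :
    ∑ u : E, psi ψ E (a * aeval u A) = if GoodPt ψ A E a then (Fintype.card E : ℂ) else 0 := by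
  haveI : Module.Finite k E := Module.Finite.of_finite
  let χ : AddChar E ℂ := (AddChar.mulShift (psi ψ E) a).compAddMonoidHom (addMap hA E)
  have hχ : ∀ u, χ u = psi ψ E (a * aeval u A) := fun u => rfl
  have h1 := AddChar.sum_eq_ite χ
  simp only [hχ] at h1
  rw [h1]
  have h2 : χ = 0 ↔ GoodPt ψ A E a := by
    rw [AddChar.eq_zero_iff]
    exact Iff.rfl
  simp only [h2]

open Classical in
/-- The number of good points is the number of zeros. -/
theorem card_good {ψ : AddChar k ℂ} (hψ : ψ ≠ 1) {A : k[X]} (hA : IsAdditive A)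
    (E : Type) [Field E] [Fintype E] [Algebra k E] :
    (univ.filter (fun a : E => GoodPt ψ A E a)).card =
      (univ.filter (fun u : E => aeval u A = 0)).card := by
  have h1 : ∑ a : E, ∑ u : E, psi ψ E (a * aeval u A) =
      (Fintype.card E : ℂ) * (univ.filter (fun a : E => GoodPt ψ A E a)).card := by
    rw [sum_congr rfl fun a _ => sum_psi_addMap hA E a, ← sum_filter, sum_const, nsmul_eq_mul,
      mul_comm]
  have h2 : ∑ a : E, ∑ u : E, psi ψ E (a * aeval u A) =
      (Fintype.card E : ℂ) * (univ.filter (fun u : E => aeval u A = 0)).card := by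
    rw [sum_comm]
    have h3 : ∀ u : E, ∑ a : E, psi ψ E (a * aeval u A) =
        if aeval u A = 0 then (Fintype.card E : ℂ) else 0 := by
      intro u
      have := AddChar.sum_mulShift (aeval u A) (psi_isPrimitive hψ E)
      push_cast at this
      exact this
    rw [sum_congr rfl fun u _ => h3 u, ← sum_filter, sum_const, nsmul_eq_mul, mul_comm]
  have h0 : (Fintype.card E : ℂ) ≠ 0 := by exact_mod_cast Fintype.card_ne_zero
  exact_mod_cast mul_left_cancel₀ h0 (h1.symm.trans h2)

end Additive

end Pool.Agent.Y145.KS
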